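import Pool.Agent.helper45.AG.Fin

/-!
# MP_e88537_al: irreducible algebraic semi-universally flexible inverse property loops are Moufang
-/

set_option autoImplicit false

universe u v

namespace Pool.Agent.Results.MP_e88537_al.AlgebraicLoops

open Pool.Agent.Results.MP_e88537_al.NilpotentLoops

/-- **Theorem.** Let `k` be a field of any characteristic and let `Q` be a loop with coordinates: an injective map
`c : Q → k ^ n` such that the coordinates of `x * y` are polynomials in the coordinates of `x` and `y`, and the
coordinates of `x \ 1` are polynomials in those of `x`. Assume that `Q` is irreducible: if the product of two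
polynomials vanishes on `Q`, then one of them vanishes on `Q`. If `Q` is semi-universally flexible and has the
inverse property, then `Q` is Moufang. -/
theorem result (k : Type v) [Field k] (n : ℕ) (Q : Type u) [Mul Q] [One Q] [IsLoop Q]
    (c : Q → Fin n → k) (inj : Function.Injective c)
    (mulPoly : Fin n → MvPolynomial (Fin n ⊕ Fin n) k)
    (hmul : ∀ (x y : Q) (i : Fin n),
      c (x * y) i = MvPolynomial.eval (Sum.elim (c x) (c y)) (mulPoly i))
    (invPoly : Fin n → MvPolynomial (Fin n) k)
    (hinv : ∀ (x : Q) (i : Fin n), c (ldiv x 1) i = MvPolynomial.eval (c x) (invPoly i))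
    (irr : ∀ p q : MvPolynomial (Fin n) k, (∀ x : Q, MvPolynomial.eval (c x) (p * q) = 0) →
      (∀ x : Q, MvPolynomial.eval (c x) p = 0) ∨ (∀ x : Q, MvPolynomial.eval (c x) q = 0))
    (hip : IP Q) (hsuf : SUF Q) : Moufang Q :=
  Pool.Agent.helper45.AG.algebraic_moufang (k := k) (n := n)
    { c := c, inj := inj, m := mulPoly, s := invPoly, hm := hmul, hs := hinv }
    (fun p q h => irr p q fun x => by rw [map_mul]; exact h x) hip hsuf

end Pool.Agent.Results.MP_e88537_al.AlgebraicLoops
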