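import Pool.Agent.helper45.AL.Man

/-!
# MP_e88537_al: connected analytic semi-universally flexible inverse property loops are Moufang
-/

set_option autoImplicit false

universe u v

namespace Pool.Agent.Results.MP_e88537_al.AnalyticLoops

open Pool.Agent.Results.MP_e88537_al.NilpotentLoops
open scoped ContDiff Manifold

/-- **Theorem.** Let `Q` be a connected Hausdorff real analytic manifold, modelled on a real Banach space `E` (for
example a finite-dimensional one), with a loop structure whose multiplication is analytic and whose inversion
`x ↦ x \ 1` is continuous. If `Q` is semi-universally flexible and has the inverse property, then `Q` is Moufang. -/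
theorem result (E : Type v) [NormedAddCommGroup E] [NormedSpace ℝ E] [CompleteSpace E]
    (Q : Type u) [TopologicalSpace Q] [T2Space Q] [PreconnectedSpace Q] [ChartedSpace E Q]
    [IsManifold 𝓘(ℝ, E) ω Q] [Mul Q] [One Q] [IsLoop Q]
    (hmul : ContMDiff (𝓘(ℝ, E).prod 𝓘(ℝ, E)) 𝓘(ℝ, E) ω (fun p : Q × Q => p.1 * p.2))
    (hinv : Continuous (fun x : Q => ldiv x 1)) (hip : IP Q) (hsuf : SUF Q) : Moufang Q :=
  Pool.Agent.helper45.AL.analytic_moufang (E := E) hip hsuf hmul hinv

end Pool.Agent.Results.MP_e88537_al.AnalyticLoops
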