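import Mathlib

/-!
# MP_e88537_al: the Moufang triples of a semi-universally flexible inverse property loop

Call `(x, y, z)` a Moufang triple of the loop `Q` if `(x y)(z x) = (x (y z)) x`, and `m` a Moufang element if all
triples `(m, y, z)` are Moufang triples. In every semi-universally flexible (SUF) loop with the inverse property
(IP) the set of Moufang triples is invariant under permutations, inversion of an entry and multiplication of one
entry by another, it does not depend on the form of the Moufang law, and multiplying an entry by a Moufang element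
does not change whether a triple is Moufang. Hence `Q` is Moufang as soon as it can be reached by Moufang elements
from a subset all of whose triples are Moufang triples. The elements of an abelian kernel (commutator theory) are
Moufang elements; so `Q` is Moufang if an abelian kernel has a Moufang supplement.
-/

set_option autoImplicit false

namespace Pool.Agent.Results.MP_e88537_al.MoufangTriples

universe u v

/-- A loop. -/
class Loop (Q : Type u) extends Mul Q, One Q where
  one_mul' : ∀ a : Q, 1 * a = a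
  mul_one' : ∀ a : Q, a * 1 = a
  bijL : ∀ a : Q, Function.Bijective (fun x : Q => a * x)
  bijR : ∀ a : Q, Function.Bijective (fun x : Q => x * a)

section defs
variable {Q : Type u} [Loop Q]

/-- `ldiv x y = x \ y`: the `z` with `x * z = y`. -/
noncomputable def ldiv (x y : Q) : Q := (Equiv.ofBijective _ (Loop.bijL x)).symm y

/-- `rdiv y x = y / x`: the `z` with `z * x = y`. -/
noncomputable def rdiv (y x : Q) : Q := (Equiv.ofBijective _ (Loop.bijR x)).symm y

/-- The operation `(x / a) (b \ y)` of the isotope `Q_{a,b}`. -/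
noncomputable def iso (a b x y : Q) : Q := rdiv x a * ldiv b y

end defs

/-- A binary operation is flexible. -/
def Flexible {Q : Type u} (f : Q → Q → Q) : Prop := ∀ x y, f x (f y x) = f (f x y) x

/-- Semi-universally flexible: all left and all right isotopes are flexible. -/
def SUF (Q : Type u) [Loop Q] : Prop :=
  (∀ a : Q, Flexible (iso a (1 : Q))) ∧ (∀ b : Q, Flexible (iso (1 : Q) b))

/-- The inverse property. -/
def IP (Q : Type u) [Loop Q] : Prop :=
  ∀ x : Q, rdiv 1 x = ldiv x 1 ∧ ∀ y : Q, ldiv x y = ldiv x 1 * y ∧ rdiv y x = y * ldiv x 1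

/-- The kernel of `f` is abelian in the sense of commutator theory: the difference term `(x / y) z`, restricted to
triples of elements of one class of `f`, is a homomorphism. -/
def AbelianKernel {Q : Type u} [Loop Q] {P : Type v} (f : Q → P) : Prop :=
  ∀ a b c a' b' c' : Q, f a = f b → f b = f c → f a' = f b' → f b' = f c' →
    (rdiv a b * c) * (rdiv a' b' * c') = rdiv (a * a') (b * b') * (c * c')

/-- Moufang loops. -/
def Moufang (Q : Type u) [Loop Q] : Prop := ∀ x y z : Q, (x * (y * z)) * x = (x * y) * (z * x)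

section basic
variable {Q : Type u} [Loop Q]

theorem mul_ldiv (x y : Q) : x * ldiv x y = y :=
  (Equiv.ofBijective _ (Loop.bijL x)).apply_symm_apply y

theorem rdiv_mul (y x : Q) : rdiv y x * x = y :=
  (Equiv.ofBijective _ (Loop.bijR x)).apply_symm_apply y

theorem ldiv_eq {x y z : Q} (h : x * z = y) : ldiv x y = z :=
  (Loop.bijL x).1 ((mul_ldiv x y).trans h.symm)

theorem rdiv_eq {x y z : Q} (h : z * x = y) : rdiv y x = z :=
  (Loop.bijR x).1 ((rdiv_mul y x).trans h.symm)

end basic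

/-- working version: operation with inverses and the two commutation laws -/
structure W (Q : Type u) [Mul Q] [One Q] where
  i : Q → Q
  il : ∀ x y : Q, i x * (x * y) = y
  li : ∀ x y : Q, x * (i x * y) = y
  ir : ∀ x y : Q, (y * i x) * x = y
  ri : ∀ x y : Q, (y * x) * i x = y
  ii : ∀ x : Q, i (i x) = x
  im : ∀ x y : Q, i (x * y) = i y * i x
  -- the two commutation laws
  s1 : ∀ p q v : Q, (p * i q) * ((v * i q) * p) = (((p * i q) * v) * i q) * p
  s2 : ∀ p q v : Q, (p * (i q * v)) * (i q * p) = p * (i q * (v * (i q * p)))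
  fl : ∀ x y : Q, x * (y * x) = (x * y) * x
  o1 : ∀ x : Q, 1 * x = x
  o2 : ∀ x : Q, x * 1 = x

theorem toW {Q : Type u} [Loop Q] (hs : SUF Q) (hi : IP Q) : ∃ w : W Q, w.i = fun x => ldiv x 1 := by
  have o1 : ∀ a : Q, (1 : Q) * a = a := Loop.one_mul'
  have o2 : ∀ a : Q, a * (1 : Q) = a := Loop.mul_one'
  have l1 : ∀ x y : Q, ldiv x y = ldiv x 1 * y := fun x y => ((hi x).2 y).1
  have r1 : ∀ x y : Q, rdiv y x = y * ldiv x 1 := fun x y => ((hi x).2 y).2
  have li : ∀ x y : Q, x * (ldiv x 1 * y) = y := fun x y => by rw [← l1, mul_ldiv]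
  have ir : ∀ x y : Q, (y * ldiv x 1) * x = y := fun x y => by rw [← r1, rdiv_mul]
  have il : ∀ x y : Q, ldiv x 1 * (x * y) = y := fun x y => by
    rw [← l1]; exact ldiv_eq rfl
  have ri : ∀ x y : Q, (y * x) * ldiv x 1 = y := fun x y => by
    rw [← r1]; exact rdiv_eq rfl
  have xi : ∀ x : Q, x * ldiv x 1 = 1 := fun x => mul_ldiv x 1
  have ix : ∀ x : Q, ldiv x 1 * x = 1 := fun x => by
    have := ir x 1
    rwa [o1] at this
  have ii : ∀ x : Q, ldiv (ldiv x 1) 1 = x := fun x => ldiv_eq (ix x)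
  have im : ∀ x y : Q, ldiv (x * y) 1 = ldiv y 1 * ldiv x 1 := fun x y => by
    apply ldiv_eq
    -- (x*y) * (y⁻¹ * x⁻¹) = 1
    have h1 : (ldiv x 1 * (x * y)) * ldiv (x * y) 1 = ldiv x 1 := ri (x * y) (ldiv x 1)
    rw [il] at h1
    -- y * (xy)⁻¹ = x⁻¹
    have h2 : ldiv y 1 * ldiv x 1 = ldiv (x * y) 1 := by rw [← h1, il]
    rw [h2, xi]
  have lo : ∀ y : Q, ldiv 1 y = y := fun y => ldiv_eq (o1 y)
  have ro : ∀ y : Q, rdiv y 1 = y := fun y => rdiv_eq (o2 y)
  -- left isotopes
  have f1 : ∀ a x y : Q, (x * ldiv a 1) * ((y * ldiv a 1) * x) =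
      (((x * ldiv a 1) * y) * ldiv a 1) * x := fun a x y => by
    have := hs.1 a x y
    simp only [iso, lo] at this
    simpa only [r1 a] using this
  have f2 : ∀ b x y : Q, x * (ldiv b 1 * (y * (ldiv b 1 * x))) =
      (x * (ldiv b 1 * y)) * (ldiv b 1 * x) := fun b x y => by
    have := hs.2 b x y
    simp only [iso, ro] at this
    rw [l1 b x, l1 b (y * (ldiv b 1 * x)), l1 b y] at this
    exact this
  have f3 : ∀ x y : Q, x * (y * x) = (x * y) * x := fun x y => by
    have := hs.1 1 x y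
    simp only [iso, lo, ro] at this
    exact this
  exact ⟨⟨fun x => ldiv x 1, il, li, ir, ri, ii, im, fun p q v => f1 q p v,
    fun p q v => (f2 q p v).symm, f3, o1, o2⟩, rfl⟩


section work
variable {Q : Type u} [Mul Q] [One Q] (w : W Q)
include w

theorem W.cl {x y z : Q} (h : x * y = x * z) : y = z := by
  rw [← w.il x y, h, w.il]

theorem W.cr {x y z : Q} (h : y * x = z * x) : y = z := by
  rw [← w.ri x y, h, w.ri]

theorem W.u1 (q b c : Q) : (q * b) * (c * q) = q * (c * ((w.i c * b) * (c * q))) := by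
  have h := w.s2 q (w.i c) (w.i c * b)
  simpa only [w.ii, w.li] using h

theorem W.A (z y v : Q) : ((w.i z * y) * (z * v)) * y = (w.i z * y) * (z * (v * y)) := by
  have h := w.s2 (w.i z * y) (w.i z) v
  simpa only [w.ii, w.li] using h

theorem W.B (z y v : Q) : (w.i z * ((y * z) * v)) * y = w.i z * ((y * z) * (v * y)) := by
  have h := w.s2 (w.i z) (w.i (y * z)) v
  simpa only [w.ii, w.ri] using h

/-- `(x, y, z)` is a Moufang triple: `(x y)(z x) = (x (y z)) x`. -/
def MT (x y z : Q) : Prop := (x * y) * (z * x) = (x * (y * z)) * x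

theorem W.mtN (q b c : Q) : MT q b c ↔ c * ((w.i c * b) * (c * q)) = (b * c) * q := by
  unfold MT
  rw [w.u1, ← w.fl]
  exact ⟨fun h => w.cl h, fun h => by rw [h]⟩

theorem W.mtR (x y z : Q) : MT x y z ↔ MT (x * y) y z := by
  rw [w.mtN, w.mtN]
  constructor
  · intro h
    have h1 : (w.i z * y) * (z * x) = w.i z * ((y * z) * x) := by rw [← h, w.il]
    have h2 := congrArg (fun t => t * y) h1
    simp only [w.A, w.B] at h2
    rw [h2, w.li]
  · intro h
    have h1 : (w.i z * y) * (z * (x * y)) = w.i z * ((y * z) * (x * y)) := by rw [← h, w.il]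
    rw [← w.A, ← w.B] at h1
    rw [w.cr h1, w.li]

/-- the two identities -/
theorem W.star (b c q a t e : Q) (ha : a = (c * (q * w.i b)) * b) (ht : t = b * a)
    (he : e = w.i t * (a * ((w.i a * b) * (a * w.i c)))) :
    c * ((w.i c * b) * (c * q)) = (t * e) * c ∧
      (b * c) * q = (t * (e * w.i b)) * (b * c) := by
  have hte : t * e = a * ((w.i a * b) * (a * w.i c)) := by rw [he, w.li]
  have hab : a * w.i b = c * (q * w.i b) := by rw [ha, w.ri]
  have hab2 : (a * w.i b) * b = a := w.ir b a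
  constructor
  · have h1 : ((w.i c * b) * (a * w.i b)) * b = (w.i c * b) * (c * q) := by
      rw [hab, w.A, w.ir]
    have h8 : (w.i c * b) * (a * w.i c) = (((w.i c * b) * (a * w.i b)) * b) * w.i c := by
      have h := w.s1 (w.i c) (w.i b) (a * w.i b)
      simpa only [w.ii, hab2] using h
    have h9 : (w.i c * b) * (c * q) = ((w.i c * b) * (a * w.i c)) * c := by
      rw [h8, w.ir, h1]
    rw [h9, w.fl, w.u1 (w.i c) b a, w.li, hte]
  · obtain ⟨v, hv⟩ : ∃ v, v = w.i c * w.i b := ⟨_, rfl⟩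
    have hv' : w.i v = b * c := by rw [hv, w.im, w.ii, w.ii]
    have hvb : v * b = w.i c := by rw [hv, w.ir]
    have hK : a * ((w.i a * b) * (a * v)) = (b * c) * (w.i c * (a * v)) := by
      have h := w.u1 v b a
      rw [hvb] at h
      rw [h, ← hv', w.il]
    have h11 : w.i c * (a * v) = q * v := by
      have h := w.s1 v (w.i b) (a * w.i b)
      simp only [w.ii, hab2, hvb] at h
      rw [h, hab, w.il, w.ir]
    have hKq : (a * ((w.i a * b) * (a * v))) * (b * c) = (b * c) * q := by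
      rw [hK, ← w.fl, h11, ← hv', w.ri]
    have hev : a * ((w.i a * b) * (a * v)) = t * (e * w.i b) := by
      obtain ⟨f, hf⟩ : ∃ f, f = w.i t * (a * ((w.i a * b) * (a * v))) := ⟨_, rfl⟩
      have htf : t * f = a * ((w.i a * b) * (a * v)) := by rw [hf, w.li]
      have h1 : t * (f * b) = t * e := by
        apply w.cl (x := w.i a)
        have hB := w.B a b f
        rw [← ht] at hB
        rw [← hB, htf, w.il, w.A, hvb, hte, w.il]
      have h2 : f * b = e := w.cl h1
      rw [← htf, ← h2, w.ri]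
    rw [← hKq, hev]

theorem W.cyc (b c z : Q) (h : MT b c z) : MT z b c := by
  have ht0 : (b * c) * (z * b) = b * ((c * z) * b) := by
    have := h
    unfold MT at this
    rw [this, w.fl]
  obtain ⟨a, ha⟩ : ∃ a, a = (c * z) * b := ⟨_, rfl⟩
  obtain ⟨t, ht⟩ : ∃ t, t = b * a := ⟨_, rfl⟩
  obtain ⟨e, he⟩ : ∃ e, e = w.i t * (a * ((w.i a * b) * (a * w.i c))) := ⟨_, rfl⟩
  have ha' : a = (c * ((z * b) * w.i b)) * b := by rw [w.ri, ha]
  obtain ⟨h1, h2⟩ := w.star b c (z * b) a t e ha' ht he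
  have ht1 : (b * c) * (z * b) = t := by rw [ht0, ht, ha]
  rw [ht1] at h2
  have h3 : t * (e * w.i b) = t * w.i (b * c) := by
    rw [← w.ri (b * c) (t * (e * w.i b)), ← h2]
  have h4 := w.cl h3
  rw [w.im] at h4
  have h5 : e = w.i c := w.cr h4
  rw [w.mtR, w.mtN, h1, h5, w.ir, ht1]

theorem W.cycIff (x y z : Q) : MT x y z ↔ MT z x y :=
  ⟨w.cyc x y z, fun h => w.cyc y z x (w.cyc z x y h)⟩

theorem W.jj (x y z : Q) (h : MT x y z) : MT (w.i x) (w.i z) (w.i y) := by
  unfold MT at h ⊢
  have h1 := congrArg w.i h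
  simp only [w.im] at h1
  rw [← w.fl]
  exact h1

theorem W.J (x y z : Q) : MT x y z ↔ MT (w.i x) (w.i z) (w.i y) :=
  ⟨w.jj x y z, fun h => by simpa only [w.ii] using w.jj _ _ _ h⟩

theorem W.mtL (x y z : Q) : MT x y z ↔ MT (z * x) y z := by
  rw [w.J x y z, w.mtR, ← w.im, ← w.J]

theorem W.sR (x y z : Q) : MT x y z ↔ MT x (y * z) z := by
  rw [w.cycIff x y z, w.cycIff z x y, w.mtR, ← w.cycIff z x, ← w.cycIff x]

theorem W.tL (x y z : Q) : MT x y z ↔ MT x y (y * z) := by
  rw [w.cycIff x y z, w.mtL, ← w.cycIff x]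

theorem W.rot (x y z : Q) : MT x y z ↔ MT x z (w.i (y * z) * z) := by
  have h := w.tL x (y * z) (w.i (y * z) * z)
  rw [w.li] at h
  have h2 := w.sR x (y * z) (w.i (y * z) * z)
  rw [w.li] at h2
  rw [w.sR, ← h, h2]

theorem W.fZ (x y z : Q) : MT x y z ↔ MT (x * z) y z := by
  rw [w.rot x y z, w.mtR, ← w.rot]

theorem W.fY (x y z : Q) : MT x y z ↔ MT (y * x) y z := by
  rw [w.J x y z, w.fZ, ← w.im, ← w.J]

theorem W.tR2 (x y z : Q) : MT x y z ↔ MT x y (z * y) := by
  rw [w.cycIff x y z, w.fZ, ← w.cycIff x]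

theorem W.sL3 (x y z : Q) : MT x y z ↔ MT x (z * y) z := by
  rw [w.cycIff x y z, w.cycIff z x y, w.fY, ← w.cycIff z x, ← w.cycIff x]

theorem W.rot' (x y z : Q) : MT x y z ↔ MT x z (w.i y) := by
  rw [w.rot x y z, w.tL, w.im, w.fl, w.li, ← w.tR2]

theorem W.lm (x y z : Q) : MT x (z * y) z ↔ z * (y * (z * x)) = ((z * y) * z) * x := by
  rw [w.mtN, w.il]

theorem W.inv3 (x y z : Q) : MT x y z ↔ MT x y (w.i z) := by
  obtain ⟨v, hv⟩ : ∃ v, v = w.i z * y := ⟨_, rfl⟩
  have hy : y = z * v := by rw [hv, w.li]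
  subst hy
  have h1 := w.lm (z * x) ((z * v) * z) (w.i z)
  rw [w.il, ← w.fl z v, w.il, w.ri] at h1
  have h2 : MT x (z * v) z ↔ MT (z * x) (v * z) (w.i z) := by
    rw [h1, w.lm, ← w.fl z v]
    constructor
    · intro h
      rw [← h, w.il]
    · intro h
      rw [← h, w.li]
  have h3 := w.mtL (z * x) (v * z) (w.i z)
  rw [w.il] at h3
  have h4 := w.sR x (v * z) (w.i z)
  rw [w.ri] at h4
  have h5 := w.sL3 x (z * v) (w.i z)
  rw [w.il] at h5
  rw [h2, h3, h4, ← h5]

theorem W.swap (x y z : Q) : MT x y z ↔ MT x z y := by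
  rw [w.rot' x y z, ← w.inv3]

theorem W.inv1 (x y z : Q) : MT x y z ↔ MT (w.i x) y z := by
  rw [w.cycIff x y z, w.cycIff z x y, w.inv3, ← w.cycIff z (w.i x) y, ← w.cycIff (w.i x)]

theorem W.lm' (x y z : Q) : MT x y z ↔ z * (y * (z * x)) = ((z * y) * z) * x := by
  rw [← w.lm, ← w.sL3]

theorem W.rm' (x y z : Q) : MT x y z ↔ ((x * z) * y) * z = x * (z * (y * z)) := by
  have h : MT x y z ↔ MT (w.i x) (w.i y) (w.i z) := by
    rw [w.J x y z, w.swap]
  rw [h, w.lm']
  constructor
  · intro h1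
    have h2 := congrArg w.i h1
    simp only [w.im, w.ii] at h2
    exact h2
  · intro h1
    have h2 := congrArg w.i h1
    simp only [w.im] at h2
    exact h2

theorem W.fli (m u : Q) : m * (u * w.i m) = (m * u) * w.i m := by
  have h := w.fl m (u * w.i m)
  rw [w.ir] at h
  rw [h, w.ri]

/-- `m` is a Moufang element: `(m y)(z m) = (m (y z)) m` for all `y`, `z`. -/
def ME (m : Q) : Prop := ∀ y z : Q, MT m y z

variable {m : Q}

theorem W.meInv (hm : ME m) : ME (w.i m) := fun y z => (w.inv1 m y z).1 (hm y z)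

theorem W.me2 (hm : ME m) (y z : Q) : MT y z m := (w.cycIff y z m).2 (hm y z)

theorem W.m1 (hm : ME m) (u v : Q) : (m * u) * (v * m) = (m * (u * v)) * m := hm u v

theorem W.m2 (hm : ME m) (u v : Q) : m * (u * (m * v)) = ((m * u) * m) * v :=
  (w.lm' v u m).1 (w.me2 hm v u)

theorem W.m3 (hm : ME m) (u v : Q) : ((v * m) * u) * m = v * (m * (u * m)) :=
  (w.rm' v u m).1 (w.me2 hm v u)

theorem W.m4 (hm : ME m) (u v : Q) : (u * w.i m) * (m * (v * m)) = (u * v) * m := by
  rw [← w.m3 hm, w.ir]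

theorem W.m5 (hm : ME m) (u v : Q) : ((m * u) * m) * (w.i m * v) = m * (u * v) := by
  rw [← w.m2 hm, w.li]

theorem W.mmL (hm : ME m) (v : Q) : (m * m) * v = m * (m * v) := by
  have h := w.m2 hm 1 v
  rw [w.o1, w.o2] at h
  exact h.symm

theorem W.mmR (hm : ME m) (v : Q) : v * (m * m) = (v * m) * m := by
  have h := w.m3 hm 1 v
  rw [w.o1, w.o2] at h
  exact h.symm

theorem W.rev (x y z : Q) : MT x y z ↔ MT z y x := by
  rw [w.cycIff x y z, w.swap]

theorem W.meSq (hm : ME m) : ME (m * m) := by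
  intro y z
  have h : MT z y (m * m) := by
    rw [w.lm', w.mmL hm, w.mmL hm, w.m2 hm, w.m2 hm, w.mmL hm y, w.mmR hm, ← w.fl m (m * y)]
  exact (w.rev z y (m * m)).1 h

theorem W.e1 (hm : ME m) (x b a : Q) :
    MT x b a ↔ MT (x * m) ((w.i m * b) * w.i m) (m * a) := by
  have hi := w.meInv hm
  have hL : ((x * m) * ((w.i m * b) * w.i m)) * ((m * a) * (x * m)) = ((x * b) * (a * x)) * m := by
    have h1 := w.m4 hi x b
    rw [w.ii, w.fl] at h1
    rw [h1, w.m1 hm, ← w.fl m (a * x), w.m4 hm]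
  have hR : ((x * m) * (((w.i m * b) * w.i m) * (m * a))) * (x * m) =
      ((x * (b * a)) * x) * m := by
    have h1 := w.m5 hi b a
    rw [w.ii] at h1
    rw [h1, ← w.fl (x * m)]
    obtain ⟨t, ht⟩ : ∃ t, t = b * a := ⟨_, rfl⟩
    rw [← ht]
    have s1 : ∀ v : Q, (x * m) * v = (x * (m * (v * m))) * w.i m := by
      intro v
      rw [← w.m3 hm v x, w.ri]
    have s2 : m * (((w.i m * t) * (x * m)) * m) = t * ((x * m) * m) := by
      have h := w.m1 hm (w.i m * t) (x * m)
      rw [w.li, ← w.fl] at h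
      exact h.symm
    have s3 : x * (t * ((x * m) * m)) = (((x * t) * x) * m) * m := by
      have h := (w.lm' (m * m) t x).1 (w.meSq hm t x)
      rw [w.mmR hm, w.mmR hm] at h
      exact h
    rw [s1, s2, s3, w.ri]
  constructor
  · intro h
    have h' : (x * b) * (a * x) = (x * (b * a)) * x := h
    change ((x * m) * ((w.i m * b) * w.i m)) * ((m * a) * (x * m)) = _
    rw [hL, hR, h']
  · intro h
    have h' : ((x * m) * ((w.i m * b) * w.i m)) * ((m * a) * (x * m)) =
      ((x * m) * (((w.i m * b) * w.i m) * (m * a))) * (x * m) := h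
    rw [hL, hR] at h'
    exact w.cr h'

theorem W.f1 (hm : ME m) (x v p : Q) : MT (m * x) v p ↔ MT x (v * m) (p * w.i m) := by
  obtain ⟨p', hp'⟩ : ∃ p', p' = p * w.i m := ⟨_, rfl⟩
  have hp : p = p' * m := by rw [hp', w.ir]
  rw [← hp']
  subst hp
  have k4 : ∀ Y : Q, v * ((m * Y) * m) = ((v * m) * Y) * m := by
    intro Y
    have h := w.m4 hm (v * m) Y
    rw [w.ri, w.fl] at h
    exact h
  have hL : (m * x) * (v * ((m * x) * (p' * m))) = (m * (x * ((v * m) * (x * p')))) * m := by
    rw [w.m1 hm, k4, w.m1 hm]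
  have hx : m * x = (m * (x * w.i m)) * m := by
    rw [← w.fl, w.ir]
  have hR : (((m * x) * v) * (m * x)) * (p' * m) =
      (m * (((x * (v * m)) * x) * p')) * m := by
    have h1 : ((m * x) * v) * (m * x) = m * ((x * (v * m)) * x) := by
      rw [← w.fl (m * x) v]
      have h2 : v * (m * x) = ((v * m) * (x * w.i m)) * m := by
        have h3 := k4 (x * w.i m)
        rw [← hx] at h3
        exact h3
      rw [h2, w.m1 hm]
      have h4 := (w.lm' (w.i m) (v * m) x).1 (w.meInv hm _ _)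
      rw [h4, ← w.fl, w.ir]
    rw [h1, w.m1 hm]
  have key : MT (p' * m) v (m * x) ↔ MT p' (v * m) x := by
    rw [w.lm', w.lm', hL, hR]
    constructor
    · intro h
      exact w.cl (w.cr h)
    · intro h
      rw [h]
  rw [w.rev (m * x) v (p' * m), w.rev x (v * m) p']
  exact key

theorem W.f2' (hm : ME m) (x v p : Q) : MT (x * m) v p ↔ MT x (w.i m * v) (m * p) := by
  have h1 : MT (x * m) v p ↔ MT (w.i m * w.i x) (w.i p) (w.i v) := by
    rw [w.J (x * m) v p, w.im]
  have h2 := w.f1 (w.meInv hm) (w.i x) (w.i p) (w.i v)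
  have h3 : MT (w.i x) (w.i p * w.i m) (w.i v * w.i (w.i m)) ↔ MT x (w.i m * v) (m * p) := by
    rw [← w.im, ← w.im, ← w.J]
  exact h1.trans (h2.trans h3)

theorem W.f2 (hm : ME m) (x v p : Q) : MT (x * m) v p ↔ MT x (m * v) (w.i m * p) := by
  rw [w.swap, w.f2' hm, w.swap]

theorem W.meR0 (hm : ME m) (x b a : Q) : MT x b a ↔ MT x (b * w.i m) a := by
  rw [w.e1 hm x b a, w.f2 hm, w.il, w.fli, w.li]

theorem W.meR (hm : ME m) (x y z : Q) : MT x y z ↔ MT (x * m) y z := by
  have h := w.meR0 (w.meInv hm) y x z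
  rw [w.ii] at h
  have h1 : MT x y z ↔ MT y x z := by rw [w.rev x y z, w.cycIff z y x, w.swap x z y, w.swap x y z, w.cycIff x z y]
  have h2 : MT (x * m) y z ↔ MT y (x * m) z := by
    rw [w.rev (x * m) y z, w.cycIff z y (x * m), w.swap (x * m) z y, w.swap (x * m) y z, w.cycIff (x * m) z y]
  rw [h1, h2]
  exact h

theorem W.meL (hm : ME m) (x y z : Q) : MT x y z ↔ MT (m * x) y z := by
  rw [w.J x y z, w.meR (w.meInv hm), ← w.im, ← w.J]

theorem W.meMul {n : Q} (hm : ME m) (hn : ME n) : ME (m * n) :=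
  fun y z => (w.meR hn m y z).1 (hm y z)

end work

section final
variable {Q : Type u} [Loop Q]

/-- `b` is obtained from `a` by multiplying on the left or on the right by a Moufang element. -/
def Step (a b : Q) : Prop := ∃ m : Q, ME m ∧ (b = a * m ∨ b = m * a)

theorem W.reach (w : W Q) {k q : Q} (h : Relation.ReflTransGen Step k q) (y z : Q) : MT k y z ↔ MT q y z := by
  induction h with
  | refl => exact Iff.rfl
  | tail _ hs ih =>
    obtain ⟨m, hm, h | h⟩ := hs
    · rw [ih, h]; exact w.meR hm _ _ _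
    · rw [ih, h]; exact w.meL hm _ _ _

theorem W.mtT (w : W Q) (p q r : Q) : MT p q r ↔ (p * (q * r)) * w.i q = (p * q) * (r * w.i q) := by
  have e := w.s1 p (w.i q) (r * w.i q)
  rw [w.ii, w.ir] at e
  unfold MT
  rw [e]
  constructor
  · intro h
    rw [← w.cr h, w.ri]
  · intro h
    rw [← h, w.ir]

/-- Kernel elements of a homomorphism with abelian kernel are Moufang elements. -/
theorem W.abel (w : W Q) (hr : ∀ x y : Q, rdiv y x = y * w.i x) {P : Type v} [Loop P] {f : Q → P}
    (hf : ∀ x y : Q, f (x * y) = f x * f y) (hab : AbelianKernel f) {n : Q} (hn : f n = 1) (a g : Q) :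
    MT a g n := by
  have c1 : ∀ x : Q, x * w.i x = 1 := fun x => by
    have := w.ri x 1
    rwa [w.o1] at this
  have c2 : ∀ x : Q, w.i x * x = 1 := fun x => by
    have := w.il x 1
    rwa [w.o2] at this
  have hg : f (g * n) = f g := by rw [hf, hn, Loop.mul_one']
  have f1 : f (1 : Q) = 1 := by
    have h : f (1 : Q) * f 1 = f 1 * 1 := by rw [← hf, w.o1, Loop.mul_one']
    exact (Loop.bijL (f 1)).1 h
  have fi : ∀ x y : Q, f x = f y → f (w.i x) = f (w.i y) := fun x y h => by
    have h1 : f x * f (w.i x) = f x * f (w.i y) := by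
      rw [← hf, c1, h, ← hf, c1]
    exact (Loop.bijL (f x)).1 h1
  have hgi : f (w.i (g * n)) = f (w.i g) := fi _ _ hg
  rw [w.mtT]
  have e1 := hab (a * (g * n)) (a * g) (a * g) (w.i (g * n)) (w.i (g * n)) (w.i g)
    (by rw [hf, hf a g, hg]) rfl rfl hgi
  have e2 := hab (a * g) (a * g) (a * g) (w.i g) (w.i (g * n)) (w.i g) rfl rfl hgi.symm hgi
  simp only [hr, w.ii, w.ri, w.ir, w.il, c1, c2, w.o1] at e1 e2
  rw [e1, e2]

/-- In a semi-universally flexible inverse property loop: the set of Moufang triples is invariant under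
permutations, inversions and multiplication of an entry by another one, and does not depend on the form of the
Moufang law; Moufang elements can be absorbed; and `Q` is Moufang if every element is reached from a set `K` of
elements, all of whose triples are Moufang triples, by repeated multiplication by Moufang elements. The elements
of an abelian kernel are Moufang elements, so `Q` is also Moufang if such a set `K` meets every class of a
homomorphism with abelian kernel. -/
theorem result {Q : Type u} [Loop Q] (hs : SUF Q) (hi : IP Q) :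
    (∀ x y z : Q, (MT x y z ↔ MT y z x) ∧ (MT x y z ↔ MT y x z) ∧ (MT x y z ↔ MT (ldiv x 1) y z) ∧
      (MT x y z ↔ MT (x * y) y z) ∧ (MT x y z ↔ z * (y * (z * x)) = ((z * y) * z) * x) ∧
      (MT x y z ↔ ((x * z) * y) * z = x * (z * (y * z)))) ∧
    (∀ m : Q, ME m → ∀ x y z : Q, (MT x y z ↔ MT (x * m) y z) ∧ (MT x y z ↔ MT (m * x) y z)) ∧
    (∀ K : Set Q, (∀ x ∈ K, ∀ y ∈ K, ∀ z ∈ K, MT x y z) →
      (∀ q : Q, ∃ k ∈ K, Relation.ReflTransGen Step k q) → Moufang Q) ∧
    (∀ (P : Type v) [Loop P] (f : Q → P), (∀ x y : Q, f (x * y) = f x * f y) → AbelianKernel f →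
      (∀ n : Q, f n = 1 → ME n) ∧
      (∀ K : Set Q, (∀ x ∈ K, ∀ y ∈ K, ∀ z ∈ K, MT x y z) → (∀ q : Q, ∃ k ∈ K, f k = f q) → Moufang Q)) := by
  obtain ⟨w, hw⟩ := toW hs hi
  have hw' : ∀ x : Q, w.i x = ldiv x 1 := fun x => by rw [hw]
  have cyc' : ∀ x y z : Q, MT x y z ↔ MT y z x := fun x y z => (w.cycIff y z x).symm
  have sw : ∀ x y z : Q, MT x y z ↔ MT y x z := fun x y z => by
    rw [w.rev x y z, w.cycIff z y x, w.swap x z y, w.swap x y z, w.cycIff x z y]
  have P3 : ∀ K : Set Q, (∀ x ∈ K, ∀ y ∈ K, ∀ z ∈ K, MT x y z) →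
      (∀ q : Q, ∃ k ∈ K, Relation.ReflTransGen Step k q) → Moufang Q := by
    intro K hK hq x y z
    obtain ⟨a, ha, hax⟩ := hq x
    obtain ⟨b, hb, hby⟩ := hq y
    obtain ⟨c, hc, hcz⟩ := hq z
    have h0 : MT a b c := hK a ha b hb c hc
    have h1 : MT x b c := (w.reach hax b c).1 h0
    have h2 : MT x y c := (sw y x c).1 ((w.reach hby x c).1 ((sw x b c).1 h1))
    have h3 : MT x y z := (cyc' z x y).1 ((w.reach hcz x y).1 ((cyc' c x y).2 h2))
    exact Eq.symm h3
  refine ⟨fun x y z => ⟨cyc' x y z, sw x y z, ?_, w.mtR x y z, w.lm' x y z, w.rm' x y z⟩, ?_, P3, ?_⟩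
  · rw [← hw' x]
    exact w.inv1 x y z
  · intro m hm x y z
    exact ⟨w.meR hm x y z, w.meL hm x y z⟩
  · intro P _ f hf hab
    have hr : ∀ x y : Q, rdiv y x = y * w.i x := fun x y => by rw [hw']; exact ((hi x).2 y).2
    have hk : ∀ n : Q, f n = 1 → ME n := fun n hn y z => (w.cycIff y z n).1 (w.abel hr hf hab hn y z)
    refine ⟨hk, fun K hK hq => P3 K hK fun q => ?_⟩
    obtain ⟨k, hkK, hkq⟩ := hq q
    refine ⟨k, hkK, Relation.ReflTransGen.single ⟨w.i k * q, hk _ ?_, Or.inl (w.li k q).symm⟩⟩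
    have h : f k * f (w.i k * q) = f k * 1 := by rw [← hf, w.li, Loop.mul_one', hkq]
    exact (Loop.bijL (f k)).1 h

end final

end Pool.Agent.Results.MP_e88537_al.MoufangTriples
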