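import Mathlib

/-!
# MP_e88537_al: centrally nilpotent semi-universally flexible inverse property loops are Moufang

Every semi-universally flexible (SUF) loop with the inverse property (IP) that is centrally nilpotent, of any
class, is Moufang. More generally: let `Q` be an SUF IP loop with normal subloops `N 0 ⊇ N 1 ⊇ N 2 ⊇ ...` such
that the intersection of all `N k` is trivial, `N k / N (k+1)` lies in the nucleus of `Q / N (k+1)` for all
`k`, and `Q / N 0` is Moufang. Then `Q` is Moufang.
-/

set_option autoImplicit false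

universe u

namespace Pool.Agent.Results.MP_e88537_al.NilpotentLoops

/-- `Q` with the given multiplication and identity `1` is a loop: `1` is a two-sided identity and all left and
right translations are bijections. -/
class IsLoop (Q : Type u) [Mul Q] [One Q] : Prop where
  one_mul : ∀ x : Q, 1 * x = x
  mul_one : ∀ x : Q, x * 1 = x
  left_bij : ∀ a : Q, Function.Bijective (fun x : Q => a * x)
  right_bij : ∀ a : Q, Function.Bijective (fun x : Q => x * a)

section defs

variable {Q : Type u} [Mul Q] [One Q] [IsLoop Q]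

/-- Left division `x \ y`: the value at `y` of the inverse of the left translation by `x`. -/
noncomputable def ldiv (x y : Q) : Q := (Equiv.ofBijective _ (IsLoop.left_bij x)).symm y

/-- Right division `x / y`: the value at `x` of the inverse of the right translation by `y`. -/
noncomputable def rdiv (x y : Q) : Q := (Equiv.ofBijective _ (IsLoop.right_bij y)).symm x

/-- The multiplication `(x / a) (b \ y)` of the principal isotope `Q_{a,b}`. -/
noncomputable def isotope (a b x y : Q) : Q := rdiv x a * ldiv b y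

end defs

/-- A binary operation is flexible: `x (y x) = (x y) x`. -/
def Flexible {Q : Type u} (m : Q → Q → Q) : Prop := ∀ x y : Q, m x (m y x) = m (m x y) x

/-- Semi-universally flexible: all left isotopes `Q_{a,1}` and all right isotopes `Q_{1,b}` are flexible. -/
def SUF (Q : Type u) [Mul Q] [One Q] [IsLoop Q] : Prop :=
  (∀ a : Q, Flexible (isotope a 1)) ∧ (∀ b : Q, Flexible (isotope 1 b))

/-- The inverse property: `1 / x = x \ 1` (write `x'` for it), `x \ y = x' y` and `y / x = y x'`. -/
def IP (Q : Type u) [Mul Q] [One Q] [IsLoop Q] : Prop :=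
  ∀ x : Q, rdiv 1 x = ldiv x 1 ∧ ∀ y : Q, ldiv x y = ldiv x 1 * y ∧ rdiv y x = y * ldiv x 1

/-- Moufang: `(x (y z)) x = (x y) (z x)`. -/
def Moufang (Q : Type u) [Mul Q] : Prop := ∀ x y z : Q, (x * (y * z)) * x = (x * y) * (z * x)

/-- `n` lies in the nucleus of `Q`: it associates with all pairs of elements, in each of the three positions. -/
def InNucleus {Q : Type u} [Mul Q] (n : Q) : Prop :=
  ∀ x y : Q, (n * x) * y = n * (x * y) ∧ (x * n) * y = x * (n * y) ∧ (x * y) * n = x * (y * n)

/-! ### The computation -/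

/-- The identities of an SUF IP loop in terms of the inverse map `i`. -/
structure Sys (Q : Type u) [Mul Q] (i : Q → Q) : Prop where
  l : ∀ x y : Q, i x * (x * y) = y
  l' : ∀ x y : Q, x * (i x * y) = y
  r : ∀ x y : Q, (y * x) * i x = y
  r' : ∀ x y : Q, (y * i x) * x = y
  ii : ∀ x : Q, i (i x) = x
  im : ∀ x y : Q, i (x * y) = i y * i x
  fl : ∀ x y : Q, x * (y * x) = (x * y) * x
  s : ∀ v w a : Q, (v * w) * ((a * w) * v) = (((v * w) * a) * w) * v
  s' : ∀ v w a : Q, (v * (w * a)) * (w * v) = v * (w * (a * (w * v)))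

/-- Main computation: if all Moufang defects lie in a normal subset `N` of the nucleus, then the right Moufang
identity holds. -/
theorem core {Q : Type u} [Mul Q] {i : Q → Q} (h : Sys Q i) (N : Q → Prop)
    (hnuc : ∀ n, N n → InNucleus n) (hconj : ∀ n x, N n → N ((i x * n) * x))
    (hdef : ∀ z p y : Q, ∃ s, N s ∧ z * ((p * y) * z) = s * ((z * p) * (y * z))) (p y z : Q) :
    (p * (y * z)) * i y = (p * y) * (z * i y) := by
  obtain ⟨s, hs, hV⟩ := hdef z p y
  set x := p * y with hx
  set c := x * z with hc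
  -- conjugates of `s`
  have hs1 : N ((i z * s) * z) := hconj s z hs
  set s1 := (i z * s) * z with hs1d
  have hs2 : N ((i y * s1) * y) := hconj s1 y hs1
  set s2 := (i y * s1) * y with hs2d
  have hs3 : N ((z * s2) * i z) := by
    have := hconj s2 (i z) hs2
    rwa [h.ii] at this
  set s3 := (z * s2) * i z with hs3d
  have nu := hnuc s hs
  have nu1 := hnuc s1 hs1
  have nu2 := hnuc s2 hs2
  have nu3 := hnuc s3 hs3
  -- commutation rules
  have c1 : s1 * i z = i z * s := by rw [hs1d, h.r]
  have c2 : s2 * i y = i y * s1 := by rw [hs2d, h.r]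
  have c3 : s3 * z = z * s2 := by rw [hs3d, h.r']
  have c4 : z * s1 = s * z := by
    rw [hs1d, (nu (i z) z).2.1, h.l']
  have c5 : (y * i z) * s3 = s1 * (y * i z) := by
    rw [(nu3 y (i z)).2.2]
    have e1 : i z * s3 = s2 * i z := by
      rw [hs3d, (nu2 z (i z)).2.1, h.l]
    rw [e1, ← (nu2 y (i z)).2.1]
    have e2 : y * s2 = s1 * y := by
      rw [hs2d, (nu1 (i y) y).2.1, h.l']
    rw [e2, (nu1 y (i z)).1]
  have hC : i c = i z * i x := by rw [hc, h.im]
  -- `V = z c`, `U = (z p) (y z)`, `V = s U`
  have kval : (i y * c) * (i z * i y) = s2 * (i y * p) := by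
    have e := h.s' (i y) (i z) (z * c)
    rw [h.l] at e
    rw [e, hV, (nu _ _).1]
    have e1 : ((z * p) * (y * z)) * (i z * i y) = z * p := by
      rw [← h.im y z, h.r]
    rw [e1, ← (nu (i z) (z * p)).2.1, ← c1, (nu1 _ _).1, h.l, ← (nu1 (i y) p).2.1, ← c2, (nu2 _ _).1]
  have ky : ((i y * c) * (i z * i y)) * y = s2 * (i y * x) := by
    rw [kval, (nu2 _ _).1]
    have e2 : (i y * p) * y = i y * (p * y) := by
      have f := h.fl y (i y * p)
      rw [h.l'] at f
      have : i y * (y * ((i y * p) * y)) = i y * (p * y) := by rw [f]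
      rwa [h.l] at this
    rw [e2]
  have dd : (i y * c) * (i z * i c) = (((i y * c) * (i z * i y)) * y) * i c := by
    have e := h.s (i c) y ((i y * c) * (i z * i y))
    have e0 : i (i y * c) = i c * y := by rw [h.im, h.ii]
    have e1 : (i c * y) * ((i y * c) * (i z * i y)) = i z * i y := by rw [← e0, h.l]
    rw [e1, h.r'] at e
    rw [← e, ← e0, h.l']
  have ff : z * ((i y * x) * i c) = ((z * i y) * x) * i c := by
    have e := h.s (i z * i x) x (z * i y)
    rw [h.r', h.l] at e
    have e1 : z * (i z * (((z * i y) * x) * (i z * i x))) = z * ((i y * x) * (i z * i x)) := by rw [e]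
    rw [h.l'] at e1
    rw [hC, e1]
  have cc : ((z * i y) * c) * (i z * i c) = s3 * (((z * i y) * x) * i c) := by
    have e := h.s (i z * i c) c (z * i y)
    rw [h.r', h.l] at e
    have e1 : z * (i z * (((z * i y) * c) * (i z * i c))) = z * ((i y * c) * (i z * i c)) := by rw [e]
    rw [h.l'] at e1
    rw [e1, dd, ky, (nu2 _ _).1, ← (nu2 z _).2.1, ← c3, (nu3 _ _).1, ff]
  have bb : ((z * i y) * c) * i y = s3 * ((z * i y) * (x * (z * i y))) := by
    have e := h.s (z * i y) c (i z * i c)
    rw [h.r', h.l] at e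
    rw [e, cc, (nu3 _ _).1, h.r', (nu3 _ _).1, ← h.fl]
  have VY : (z * c) * i y = s * (z * (x * (z * i y))) := by
    have e := h.s' (z * i y) (i z) (z * c)
    rw [h.l, h.l] at e
    rw [bb] at e
    -- e : s3 * ((z * i y) * (x * (z * i y))) = (z * i y) * (i z * ((z * c) * i y))
    have e0 : i (z * i y) = y * i z := by rw [h.im, h.ii]
    have e1 : (y * i z) * (s3 * ((z * i y) * (x * (z * i y)))) = i z * ((z * c) * i y) := by
      rw [e, ← e0, h.l]
    rw [← (nu3 (y * i z) _).2.1, c5, (nu1 _ _).1, ← e0, h.l] at e1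
    have e2 : z * (s1 * (x * (z * i y))) = (z * c) * i y := by rw [e1, h.l']
    rw [← e2, ← (nu1 z _).2.1, c4, (nu _ _).1]
  have S1 : ((z * p) * (y * z)) * i y = z * ((p * (y * z)) * i y) := by
    have e := h.s (i y) (y * z) p
    rw [h.l] at e
    exact e.symm
  rw [hV, (nu _ _).1, S1] at VY
  -- VY : s * (z * ((p * (y * z)) * i y)) = s * (z * (x * (z * i y)))
  have e1 := congrArg (fun t => i z * (i s * t)) VY
  simpa only [h.l] using e1

/-- From the right Moufang identity to the Moufang identity. -/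
theorem moufang_of {Q : Type u} [Mul Q] {i : Q → Q} (h : Sys Q i)
    (hR : ∀ p y z : Q, (p * (y * z)) * i y = (p * y) * (z * i y)) : Moufang Q := by
  intro t q w
  have RM : ∀ p b : Q, (p * b) * t = (p * i t) * ((t * b) * t) := by
    intro p b
    have e := hR p (i t) (t * b)
    rw [h.l, h.ii] at e
    exact e
  have e := RM (i q) (q * w)
  rw [h.l] at e
  have e0 : i (i q * i t) = t * q := by rw [h.im, h.ii, h.ii]
  rw [e, ← e0, h.l]

/-! ### Loops -/

section loops

variable {Q : Type u} [Mul Q] [One Q] [IsLoop Q]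

theorem mul_ldiv (x y : Q) : x * ldiv x y = y :=
  (Equiv.ofBijective _ (IsLoop.left_bij x)).apply_symm_apply y

theorem ldiv_mul (x y : Q) : ldiv x (x * y) = y :=
  (Equiv.ofBijective _ (IsLoop.left_bij x)).symm_apply_apply y

theorem rdiv_mul (x y : Q) : rdiv x y * y = x :=
  (Equiv.ofBijective _ (IsLoop.right_bij y)).apply_symm_apply x

theorem mul_rdiv (x y : Q) : rdiv (x * y) y = x :=
  (Equiv.ofBijective _ (IsLoop.right_bij y)).symm_apply_apply x

theorem ldiv_one (y : Q) : ldiv 1 y = y := by
  have := mul_ldiv (1 : Q) y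
  rwa [IsLoop.one_mul] at this

theorem rdiv_one (y : Q) : rdiv y 1 = y := by
  have := rdiv_mul y (1 : Q)
  rwa [IsLoop.mul_one] at this

/-- The identities of an SUF IP loop. -/
theorem sys_of (hip : IP Q) (hs : SUF Q) : Sys Q (fun x : Q => ldiv x 1) := by
  have l : ∀ x y : Q, ldiv x 1 * (x * y) = y := by
    intro x y
    rw [← ((hip x).2 (x * y)).1, ldiv_mul]
  have l' : ∀ x y : Q, x * (ldiv x 1 * y) = y := by
    intro x y
    rw [← ((hip x).2 y).1, mul_ldiv]
  have r : ∀ x y : Q, (y * x) * ldiv x 1 = y := by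
    intro x y
    rw [← ((hip x).2 (y * x)).2, mul_rdiv]
  have r' : ∀ x y : Q, (y * ldiv x 1) * x = y := by
    intro x y
    rw [← ((hip x).2 y).2, rdiv_mul]
  have ii : ∀ x : Q, ldiv (ldiv x 1) 1 = x := by
    intro x
    have e := l (ldiv x 1) (x * 1)
    rw [l x 1, IsLoop.mul_one, IsLoop.mul_one] at e
    exact e
  have im : ∀ x y : Q, ldiv (x * y) 1 = ldiv y 1 * ldiv x 1 := by
    intro x y
    have e1 : y * ldiv (x * y) 1 = ldiv x 1 := by
      have := r (x * y) (ldiv x 1)
      rwa [l] at this
    rw [← e1, l]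
  have s : ∀ v w a : Q, (v * w) * ((a * w) * v) = (((v * w) * a) * w) * v := by
    intro v w a
    have e := hs.1 (ldiv w 1) v a
    simp only [isotope, ldiv_one] at e
    have e2 : ∀ t : Q, rdiv t (ldiv w 1) = t * w := by
      intro t
      rw [((hip (ldiv w 1)).2 t).2, ii]
    simp only [e2] at e
    exact e
  have s' : ∀ v w a : Q, (v * (w * a)) * (w * v) = v * (w * (a * (w * v))) := by
    intro v w a
    have e := hs.2 (ldiv w 1) v a
    simp only [isotope, rdiv_one] at e
    have e2 : ∀ t : Q, ldiv (ldiv w 1) t = w * t := by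
      intro t
      rw [((hip (ldiv w 1)).2 t).1, ii]
    simp only [e2] at e
    exact e.symm
  refine ⟨l, l', r, r', ii, im, ?_, s, s'⟩
  intro x y
  have e := s x 1 y
  simpa only [IsLoop.mul_one] using e

variable {K : Type u} [Mul K] [One K] [IsLoop K]

/-- A homomorphism of loops: it respects the multiplication. -/
theorem map_one_of {f : Q → K} (hf : ∀ x y, f (x * y) = f x * f y) : f 1 = 1 := by
  have e : f 1 * f 1 = f 1 * 1 := by rw [← hf, IsLoop.one_mul, IsLoop.mul_one]
  exact (IsLoop.left_bij (f 1)).injective e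

theorem map_ldiv {f : Q → K} (hf : ∀ x y, f (x * y) = f x * f y) (x y : Q) :
    f (ldiv x y) = ldiv (f x) (f y) := by
  apply (IsLoop.left_bij (f x)).injective
  show f x * f (ldiv x y) = f x * ldiv (f x) (f y)
  rw [← hf, mul_ldiv, mul_ldiv]

theorem map_rdiv {f : Q → K} (hf : ∀ x y, f (x * y) = f x * f y) (x y : Q) :
    f (rdiv x y) = rdiv (f x) (f y) := by
  apply (IsLoop.right_bij (f y)).injective
  show f (rdiv x y) * f y = rdiv (f x) (f y) * f y
  rw [← hf, rdiv_mul, rdiv_mul]

theorem map_isotope {f : Q → K} (hf : ∀ x y, f (x * y) = f x * f y) (a b x y : Q) :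
    f (isotope a b x y) = isotope (f a) (f b) (f x) (f y) := by
  simp only [isotope, hf, map_ldiv hf, map_rdiv hf]

theorem IP_of_surj {f : Q → K} (hf : ∀ x y, f (x * y) = f x * f y) (hs : Function.Surjective f)
    (h : IP Q) : IP K := by
  intro x
  obtain ⟨x, rfl⟩ := hs x
  refine ⟨?_, ?_⟩
  · rw [← map_one_of hf, ← map_rdiv hf, ← map_ldiv hf, (h x).1]
  · intro y
    obtain ⟨y, rfl⟩ := hs y
    refine ⟨?_, ?_⟩
    · rw [← map_one_of hf, ← map_ldiv hf, ← map_ldiv hf, ← hf, ← ((h x).2 y).1]
    · rw [← map_one_of hf, ← map_ldiv hf, ← map_rdiv hf, ← hf, ← ((h x).2 y).2]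

theorem SUF_of_surj {f : Q → K} (hf : ∀ x y, f (x * y) = f x * f y) (hs : Function.Surjective f)
    (h : SUF Q) : SUF K := by
  refine ⟨?_, ?_⟩
  · intro a x y
    obtain ⟨a, rfl⟩ := hs a
    obtain ⟨x, rfl⟩ := hs x
    obtain ⟨y, rfl⟩ := hs y
    have e := congrArg f (h.1 a x y)
    simpa only [map_isotope hf, map_one_of hf] using e
  · intro b x y
    obtain ⟨b, rfl⟩ := hs b
    obtain ⟨x, rfl⟩ := hs x
    obtain ⟨y, rfl⟩ := hs y
    have e := congrArg f (h.2 b x y)
    simpa only [map_isotope hf, map_one_of hf] using e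

/-- One step: an SUF IP loop with a homomorphism into a Moufang loop whose kernel lies in the nucleus is
Moufang. -/
theorem one_step (hip : IP Q) (hs : SUF Q) {f : Q → K} (hf : ∀ x y, f (x * y) = f x * f y)
    (hker : ∀ n, f n = 1 → InNucleus n) (hM : Moufang K) : Moufang Q := by
  have h := sys_of hip hs
  apply moufang_of h
  apply core h (fun n => f n = 1) hker
  · intro n x hn
    show f ((ldiv x 1 * n) * x) = 1
    have hn' : f n = 1 := hn
    have e := h.r' x 1
    have e2 : ldiv x 1 * x = 1 := by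
      have := h.l x 1
      rwa [IsLoop.mul_one] at this
    rw [hf, hf, hn', IsLoop.mul_one, ← hf, e2, map_one_of hf]
  · intro z p y
    refine ⟨(z * ((p * y) * z)) * ldiv ((z * p) * (y * z)) 1, ?_, ?_⟩
    · show f ((z * ((p * y) * z)) * ldiv ((z * p) * (y * z)) 1) = 1
      have e1 : f (z * ((p * y) * z)) = f ((z * p) * (y * z)) := by
        rw [h.fl]
        simp only [hf]
        exact hM _ _ _
      rw [hf, e1, ← hf]
      have e2 : ∀ t : Q, t * ldiv t 1 = 1 := fun t => mul_ldiv t 1
      rw [e2, map_one_of hf]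
    · exact (h.r' _ _).symm

end loops

/-- **Theorem.** Let `Q` be a semi-universally flexible loop with the inverse property. Let `pi k : Q → P k`
(`k = 0, 1, 2, ...`) be surjective homomorphisms of loops with kernels `N 0 ⊇ N 1 ⊇ N 2 ⊇ ...` whose
intersection is trivial, such that `N k / N (k+1)` lies in the nucleus of `Q / N (k+1) = P (k+1)` for all `k`,
and `Q / N 0 = P 0` is Moufang (for example trivial). Then `Q` is Moufang. In particular every centrally
nilpotent SUF IP loop, of any nilpotency class, and every residually nilpotent one, is Moufang. -/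
theorem result (Q : Type u) [Mul Q] [One Q] [IsLoop Q] (hip : IP Q) (hsuf : SUF Q)
    (P : ℕ → Type u) [∀ k, Mul (P k)] [∀ k, One (P k)] [∀ k, IsLoop (P k)] (pi : ∀ k, Q → P k)
    (hom : ∀ k, ∀ x y : Q, pi k (x * y) = pi k x * pi k y)
    (surj : ∀ k, Function.Surjective (pi k))
    (desc : ∀ k, ∀ x y : Q, pi (k + 1) x = pi (k + 1) y → pi k x = pi k y)
    (nuc : ∀ k, ∀ x : Q, pi k x = 1 → InNucleus (pi (k + 1) x))
    (inter : ∀ x y : Q, (∀ k, pi k x = pi k y) → x = y)
    (hM : Moufang (P 0)) : Moufang Q := by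
  have key : ∀ k, Moufang (P k) := by
    intro k
    induction k with
    | zero => exact hM
    | succ k ih =>
      choose g hg using surj (k + 1)
      have hf : ∀ x : Q, pi k (g (pi (k + 1) x)) = pi k x := fun x => desc k _ _ (hg _)
      refine one_step (Q := P (k + 1)) (K := P k) (IP_of_surj (hom (k + 1)) (surj (k + 1)) hip)
        (SUF_of_surj (hom (k + 1)) (surj (k + 1)) hsuf) (f := fun a => pi k (g a)) ?_ ?_ ih
      · intro a b
        obtain ⟨x, rfl⟩ := surj (k + 1) a
        obtain ⟨y, rfl⟩ := surj (k + 1) b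
        show pi k (g (pi (k + 1) x * pi (k + 1) y)) = _
        rw [← hom (k + 1), hf, hf, hf, hom k]
      · intro a ha
        obtain ⟨x, rfl⟩ := surj (k + 1) a
        have ha' : pi k (g (pi (k + 1) x)) = 1 := ha
        rw [hf] at ha'
        exact nuc k x ha'
  intro x y z
  apply inter
  intro k
  simp only [hom k]
  exact key k _ _ _

end Pool.Agent.Results.MP_e88537_al.NilpotentLoops
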